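import Pool.Agent.helper63.Dg4.Spec

/-!
# The good tuple (row GTU of project dg4)
-/

namespace Pool.Agent.helper63.Dg4

open Encodable Pool.Agent.helper63.Diag

/-- The iteration: a property of `H`-tuples of functions which is closed under limits. -/
theorem GTU_gen {H : ℕ} {P : (ℕ → ℕ → ℕ) → Prop} {R : ℕ → ℕ → (ℕ → ℕ → ℕ) → Prop}
    {B : ℕ → ℕ → ℕ}
    (hP : ∀ w : ℕ → ℕ → ℕ, (∀ k, ∃ w', P w' ∧ ∀ i < H, ∀ j < k, w' i j = w i j) → P w)
    (hR : ∀ m y (w w' : ℕ → ℕ → ℕ), (∀ i < H, ∀ j < B m y, w i j = w' i j) → R m y w → R m y w')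
    (hne : ∃ w, P w)
    (hd : ∀ (m l : ℕ) (w : ℕ → ℕ → ℕ), P w → m < l → ∃ w', P w' ∧
      (∀ i < H, ∀ j < l, w' i j = w i j) ∧ ∃ y, R m y w') :
    ∃ w, P w ∧ ∀ m, ∃ y, R m y w := by
  classical
  let S := {q : (ℕ → ℕ → ℕ) × ℕ // P q.1}
  have step : ∀ (m : ℕ) (s : S), ∃ s' : S, m < s.1.2 → (s.1.2 < s'.1.2 ∧
      (∀ i < H, ∀ j < s.1.2, s'.1.1 i j = s.1.1 i j) ∧
      ∃ y, B m y ≤ s'.1.2 ∧ R m y s'.1.1) := by
    rintro m ⟨⟨v, l⟩, hv⟩
    by_cases hml : m < l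
    · obtain ⟨w', h1, h2, y, h3⟩ := hd m l v hv hml
      refine ⟨⟨(w', max (l + 1) (B m y)), h1⟩, fun _ => ⟨?_, ?_, y, ?_, ?_⟩⟩
      · exact lt_of_lt_of_le (Nat.lt_succ_self l) (le_max_left _ _)
      · exact fun i hi j hj => h2 i hi j hj
      · exact le_max_right _ _
      · exact h3
    · exact ⟨⟨(v, l), hv⟩, fun h => absurd h hml⟩
  choose nxt hnxt using step
  obtain ⟨v0, hv0⟩ := hne
  let s0 : S := ⟨(v0, 1), hv0⟩
  let seq : ℕ → S := fun m => Nat.rec s0 (fun m s => nxt m s) m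
  have hseq : ∀ m, seq (m + 1) = nxt m (seq m) := fun m => rfl
  have hlen : ∀ m, m < (seq m).1.2 := by
    intro m
    induction m with
    | zero => show 0 < 1; omega
    | succ m ih =>
      have := (hnxt m (seq m) ih).1
      rw [hseq]
      omega
  have hlt : ∀ m, (seq m).1.2 < (seq (m + 1)).1.2 := fun m => (hnxt m (seq m) (hlen m)).1
  have hmono : ∀ m m', m ≤ m' → (seq m).1.2 ≤ (seq m').1.2 := by
    intro m m' h
    induction h with
    | refl => exact le_rfl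
    | step h ih => exact ih.trans (hlt _).le
  have hst : ∀ m m', m ≤ m' → ∀ i < H, ∀ j < (seq m).1.2, (seq m').1.1 i j = (seq m).1.1 i j := by
    intro m m' h
    induction h with
    | refl => intros; rfl
    | step h ih =>
      intro i hi j hj
      rename_i k
      rw [← ih i hi j hj]
      exact (hnxt k (seq k) (hlen k)).2.1 i hi j (lt_of_lt_of_le hj (hmono m k h))
  have hw : ∀ i < H, ∀ m, ∀ j < (seq m).1.2, (seq j).1.1 i j = (seq m).1.1 i j := by
    intro i hi m j hj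
    rcases le_total j m with h | h
    · exact (hst j m h i hi j (hlen j)).symm
    · exact hst m j h i hi j hj
  refine ⟨fun i j => (seq j).1.1 i j, hP _ (fun k => ?_), fun m => ?_⟩
  · exact ⟨(seq k).1.1, (seq k).2, fun i hi j hj => (hw i hi k j (hj.trans (hlen k))).symm⟩
  · obtain ⟨y, hy, hy2⟩ := (hnxt m (seq m) (hlen m)).2.2
    refine ⟨y, hR m y (seq (m + 1)).1.1 _ (fun i hi j hj => ?_) hy2⟩
    exact (hw i hi (m + 1) j (lt_of_lt_of_le hj hy)).symm

/-- compatibility depends on finitely many values of the colouring -/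
theorem GTU_cpt_dep (p : Cond) (τ : List ℕ) :
    ∃ K, ∀ v v' : ℕ → ℕ, (∀ j < K, v j = v' j) → Cpt p v τ → Cpt p v' τ := by
  let b : ℕ → ℕ := fun i => max (Nat.pair (col i) (τ.getD i 0 - 1)) (Nat.pair (col i) (el i))
  refine ⟨(Finset.range τ.length).sup b + 1, fun v v' hv h => ⟨h.1, fun i hi hi2 => ?_⟩⟩
  have hb : b i ≤ (Finset.range τ.length).sup b :=
    Finset.le_sup (f := b) (Finset.mem_range.2 hi2)
  have e1 : v (Nat.pair (col i) (τ.getD i 0 - 1)) = v' (Nat.pair (col i) (τ.getD i 0 - 1)) := by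
    apply hv
    have : Nat.pair (col i) (τ.getD i 0 - 1) ≤ b i := le_max_left _ _
    omega
  have e2 : v (Nat.pair (col i) (el i)) = v' (Nat.pair (col i) (el i)) := by
    apply hv
    have : Nat.pair (col i) (el i) ≤ b i := le_max_right _ _
    omega
  obtain ⟨h1, h2⟩ := h.2 i hi hi2
  refine ⟨h1, fun ha => ?_⟩
  rcases h2 ha with h3 | h3
  · exact Or.inl h3
  · refine Or.inr ?_
    rw [← e1, ← e2]
    exact h3

/-- goodness of a tuple `w 0, …, w ℓ`, with the colouring `w (ℓ + 1)` -/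
def GTU_good (E' : ℕ → ℕ → Prop) (p : Cond) (D : List ℕ → ℕ × ℕ → Prop) (ℓ : ℕ)
    (w : ℕ → ℕ → ℕ) : Prop :=
  Inv E' (ℓ + 1) (w (ℓ + 1)) ∧ ∀ a ≤ ℓ, KS p D ℓ a (w (ℓ + 1)) (w a)

theorem GTU_good_closed {E' : ℕ → ℕ → Prop} {p : Cond} {D : List ℕ → ℕ × ℕ → Prop} {ℓ : ℕ}
    (w : ℕ → ℕ → ℕ)
    (h : ∀ k, ∃ w', GTU_good E' p D ℓ w' ∧ ∀ i < ℓ + 2, ∀ j < k, w' i j = w i j) :
    GTU_good E' p D ℓ w := by
  refine ⟨⟨fun z => ?_, fun z z' hz => ?_⟩, fun a ha => ⟨⟨fun x => ?_, fun k => ?_⟩,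
    fun τ hτ z hD => ?_⟩⟩
  · obtain ⟨w', ⟨⟨h1, -⟩, -⟩, h3⟩ := h (z + 1)
    rw [← h3 (ℓ + 1) (by omega) z (by omega)]
    exact h1 z
  · obtain ⟨w', ⟨⟨-, h2⟩, -⟩, h3⟩ := h (z + z' + 1)
    rw [← h3 (ℓ + 1) (by omega) z (by omega), ← h3 (ℓ + 1) (by omega) z' (by omega)]
    exact h2 z z' hz
  · obtain ⟨w', ⟨-, h2⟩, h3⟩ := h (x + 1)
    rw [← h3 a (by omega) x (by omega)]
    exact (h2 a ha).1.1 x
  · obtain ⟨w', ⟨-, h2⟩, h3⟩ := h k
    rw [← res_congr (X := w' a) (fun j hj => h3 a (by omega) j hj)]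
    exact (h2 a ha).1.2 k
  · obtain ⟨K, hK⟩ := GTU_cpt_dep p τ
    obtain ⟨w', ⟨-, h2⟩, h3⟩ := h (max K (z + 1))
    have hc : Cpt p (w' a) τ := hK (w a) (w' a) (fun j hj =>
      (h3 a (by omega) j (lt_of_lt_of_le hj (le_max_left _ _))).symm) hτ
    rw [← h3 (ℓ + 1) (by omega) z (lt_of_lt_of_le (Nat.lt_succ_self z) (le_max_right _ _))]
    exact (h2 a ha).2 τ hc z hD

/-- the step -/
theorem GTU_step (hCEK : CEK_stmt) (hCMP : CMP_stmt) {E' : ℕ → ℕ → Prop} {p : Cond}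
    {D : List ℕ → ℕ × ℕ → Prop} (hD : PrimrecRel D) {ℓ : ℕ} {κ : ℕ}
    (hκ : p.ab.getD κ 0 = 2) (hQ : QProp E' (fun y z => (p.ce κ).E z y))
    (x l : ℕ) {w : ℕ → ℕ → ℕ} (hw : GTU_good E' p D ℓ w) :
    ∃ w', GTU_good E' p D ℓ w' ∧ (∀ i < ℓ + 2, ∀ j < l, w' i j = w i j) ∧
      ∃ y, ∀ a ≤ ℓ, w' a (Nat.pair κ y) = p.fl (w a (Nat.pair κ x)) := by
  classical
  let c : ℕ → ℕ := w (ℓ + 1)
  let β : ℕ → ℕ → List (ℕ × ℕ) := fun a y =>
    (Nat.pair κ y, p.fl (w a (Nat.pair κ x))) :: (List.range l).map (fun j => (j, w a j))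
  have hβ : ∀ a y (u : ℕ → ℕ), (∀ b ∈ β a y, u b.1 = b.2) ↔
      (u (Nat.pair κ y) = p.fl (w a (Nat.pair κ x)) ∧ ∀ j < l, u j = w a j) := by
    intro a y u
    simp only [β, List.mem_cons, List.mem_map, List.mem_range, forall_eq_or_imp,
      forall_exists_index, and_imp, forall_apply_eq_imp_iff₂]
  let A : List ℕ × ℕ × ℕ → Prop := fun q =>
    (∃ j < l, j < q.1.length ∧ ¬ q.1.getD j 0 = (res c l).getD j 0) ∨
    ∃ a < ℓ + 1, q.2.2 = p.Y κ (p.fl (w a (Nat.pair κ x))) ∧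
      ∀ u, ¬ (KF p D ℓ a q.1 u ∧ ∀ b ∈ β a q.2.1, u b.1 = b.2)
  have hA : CE A := by
    refine S1.or (S1.prim ?_) ?_
    · refine PRexlt (R := fun (q : List ℕ × ℕ × ℕ) (j : ℕ) =>
          j < q.1.length ∧ ¬ q.1.getD j 0 = (res c l).getD j 0) ?_ (Primrec.const l)
      refine PrimrecPred.and ?_ (PrimrecPred.not ?_)
      · exact Primrec.nat_lt.comp Primrec.snd
          (Primrec.list_length.comp (Primrec.fst.comp Primrec.fst))
      · exact Primrec.eq.comp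
          ((Primrec.list_getD 0).comp (Primrec.fst.comp Primrec.fst) Primrec.snd)
          ((Primrec.list_getD 0).comp (Primrec.const _) Primrec.snd)
    · refine S1.orlt (A := fun (a : ℕ) (q : List ℕ × ℕ × ℕ) =>
        q.2.2 = p.Y κ (p.fl (w a (Nat.pair κ x))) ∧
        ∀ u, ¬ (KF p D ℓ a q.1 u ∧ ∀ b ∈ β a q.2.1, u b.1 = b.2)) (ℓ + 1) (fun a _ => ?_)
      refine S1.and (S1.prim (Primrec.eq.comp (Primrec.snd.comp Primrec.snd)
        (Primrec.const _))) ?_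
      have hf : Primrec (fun q : List ℕ × ℕ × ℕ =>
          ((ℓ, a, q.1, β a q.2.1) : ℕ × ℕ × List ℕ × List (ℕ × ℕ))) := by
        refine Primrec.pair (Primrec.const _) (Primrec.pair (Primrec.const _)
          (Primrec.pair Primrec.fst ?_))
        exact Primrec.list_cons.comp (Primrec.pair
          (Primrec₂.natPair.comp (Primrec.const _) (Primrec.fst.comp Primrec.snd))
          (Primrec.const _)) (Primrec.const _)
      exact (hCEK p D hD).comp hf
  rcases hQ (ℓ + 1) A hA with h | ⟨c', hc', y, hy⟩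
  · exfalso
    obtain ⟨m, y, z, hAm, hE⟩ := h c hw.1
    rcases hAm with ⟨j, hj, hj2, hj3⟩ | ⟨a, ha, hz, hu⟩
    · rw [res_length] at hj2
      rw [res_getD c hj2, res_getD c hj] at hj3
      exact hj3 rfl
    · have hKS := hw.2 a (by omega)
      refine hu (w a) ⟨⟨hKS.1, fun τ hτ z' hz' hD' => ?_⟩, (hβ a y (w a)).2 ⟨?_, fun _ _ => rfl⟩⟩
      · rw [res_length] at hz'
        rw [res_getD c hz']
        exact hKS.2 τ hτ z' hD'
      · have h1 := p.yc (w a) hKS.1 κ hκ x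
        have h2 := p.inv (w a) hKS.1 κ hκ z y hE
        rw [← h2]
        have hz2 : z = p.Y κ (p.fl (w a (Nat.pair κ x))) := hz
        rw [hz2]
        exact h1
  · have hag : ∀ j < l, c' j = c j := by
      intro j hj
      by_contra hne
      refine hy l 0 (Or.inl ⟨j, hj, by rwa [res_length], ?_⟩)
      rwa [res_getD c' hj, res_getD c hj]
    have hu : ∀ a, ∃ u : ℕ → ℕ, a < ℓ + 1 → (KS p D ℓ a c' u ∧
        u (Nat.pair κ y) = p.fl (w a (Nat.pair κ x)) ∧ ∀ j < l, u j = w a j) := by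
      intro a
      by_cases ha : a < ℓ + 1
      · obtain ⟨u, h1, h2⟩ := hCMP p D ℓ a c' (β a y) (fun m => by
          by_contra hcon
          push Not at hcon
          refine hy m (p.Y κ (p.fl (w a (Nat.pair κ x)))) (Or.inr ⟨a, ha, rfl, fun u hu => ?_⟩)
          obtain ⟨b, hb, hb2⟩ := hcon u hu.1
          exact hb2 (hu.2 b hb))
        exact ⟨u, fun _ => ⟨h1, (hβ a y u).1 h2⟩⟩
      · exact ⟨fun _ => 0, fun h => absurd h ha⟩
    choose u hu using hu
    let w' : ℕ → ℕ → ℕ := fun i => if i = ℓ + 1 then c' else u i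
    have e1 : w' (ℓ + 1) = c' := by simp [w']
    have e2 : ∀ a, a ≤ ℓ → w' a = u a := by
      intro a ha
      have : a ≠ ℓ + 1 := by omega
      simp [w', this]
    refine ⟨w', ⟨?_, fun a ha => ?_⟩, fun i hi j hj => ?_, y, fun a ha => ?_⟩
    · rw [e1]; exact hc'
    · rw [e1, e2 a ha]; exact (hu a (by omega)).1
    · by_cases h : i = ℓ + 1
      · subst h
        rw [e1]; exact hag j hj
      · rw [e2 i (by omega)]
        exact (hu i (by omega)).2.2 j hj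
    · rw [e2 a ha]
      exact (hu a (by omega)).2.1

theorem GTU (hCEK : CEK_stmt) (hCMP : CMP_stmt) : GTU_stmt := by
  classical
  intro E' p D hD hQ ℓ c hc hv
  have hv' : ∀ a, ∃ v, a ≤ ℓ → KS p D ℓ a c v := by
    intro a
    by_cases ha : a ≤ ℓ
    · obtain ⟨v, h⟩ := hv a ha
      exact ⟨v, fun _ => h⟩
    · exact ⟨fun _ => 0, fun h => absurd h ha⟩
  choose v hv' using hv'
  obtain ⟨w, hw, hw2⟩ := GTU_gen (H := ℓ + 2) (P := GTU_good E' p D ℓ)
    (R := fun m y w => p.ab.getD m.unpair.1 0 = 2 →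
      ∀ a ≤ ℓ, w a (Nat.pair m.unpair.1 y) = p.fl (w a m))
    (B := fun m y => max m (Nat.pair m.unpair.1 y) + 1)
    GTU_good_closed
    (by
      intro m y w w' h hR ha a hal
      have h1 := h a (by omega) (Nat.pair m.unpair.1 y)
        (Nat.lt_succ_of_le (le_max_right _ _))
      have h2 := h a (by omega) m (Nat.lt_succ_of_le (le_max_left _ _))
      rw [← h1, ← h2]
      exact hR ha a hal)
    (by
      refine ⟨fun i => if i = ℓ + 1 then c else v i, ?_, fun a ha => ?_⟩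
      · simp only [if_true]; exact hc
      · have : a ≠ ℓ + 1 := by omega
        simp only [if_true, this, if_false]
        exact hv' a ha)
    (by
      intro m l w hw hml
      by_cases hk : p.ab.getD m.unpair.1 0 = 2
      · obtain ⟨w', h1, h2, y, h3⟩ := GTU_step hCEK hCMP hD hk (hQ _ hk) m.unpair.2 l hw
        refine ⟨w', h1, h2, y, fun _ a ha => ?_⟩
        have := h3 a ha
        rw [Nat.pair_unpair] at this
        rw [this, h2 a (by omega) m hml]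
      · exact ⟨w, hw, fun _ _ _ _ => rfl, 0, fun h => absurd h hk⟩)
  refine ⟨w, w (ℓ + 1), fun z => ?_, hw.2, fun κ hκ x => ?_⟩
  · have := hw.1.1 z
    omega
  · obtain ⟨y, hy⟩ := hw2 (Nat.pair κ x)
    refine ⟨y, fun a ha => ?_⟩
    have := hy (by simpa using hκ) a ha
    simpa using this

end Pool.Agent.helper63.Dg4
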